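import Pool.Agent.SHA.Stmts

set_option autoImplicit false

namespace Pool.Agent.SHA.H56

open Pool.Agent.SHA

universe u

open Classical in
theorem ld1 (lpr : LPRStmt.{u}) : LD1Stmt.{u} := by
  intro U F Q x q hx hO
  obtain ⟨z, z1, z2, z3, z4⟩ := lpr U F Q x hx
  refine ⟨F.filter (fun f => z f = 1), Finset.filter_subset _ _, ?_, ?_⟩
  · intro O hOQ
    have h1 : (((F.filter (fun f => z f = 1)).filter (fun f => f ∈ O)).card : ℝ) ≤ q := by
      have h2 : (((F.filter (fun f => z f = 1)).filter (fun f => f ∈ O)).card : ℝ) =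
          ∑ f ∈ (F.filter (fun f => z f = 1)).filter (fun f => f ∈ O), z f := by
        rw [Finset.sum_congr rfl (g := fun _ => (1 : ℝ))]
        · simp
        · intro f hf
          exact (Finset.mem_filter.1 (Finset.mem_filter.1 hf).1).2
      rw [h2]
      refine le_trans ?_ (hO O hOQ)
      rw [← z2 O hOQ]
      apply Finset.sum_le_sum_of_subset_of_nonneg
      · intro f hf
        rw [Finset.mem_filter] at hf ⊢
        exact ⟨(Finset.mem_filter.1 hf.1).1, hf.2⟩
      · intro f hf _
        exact (z1 f (Finset.mem_filter.1 hf).1).1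
    exact_mod_cast h1
  · have h1 : ∑ f ∈ F, z f ≤ ((F.filter (fun f => z f = 1)).card : ℝ) +
        ((F.filter (fun f => 0 < z f ∧ z f < 1)).card : ℝ) := by
      have h2 : ∀ f ∈ F, z f ≤ (if z f = 1 then (1 : ℝ) else 0) +
          (if 0 < z f ∧ z f < 1 then (1 : ℝ) else 0) := by
        intro f hf
        have h3 := z1 f hf
        by_cases c1 : z f = 1
        · rw [if_pos c1]
          have : (0 : ℝ) ≤ (if 0 < z f ∧ z f < 1 then (1 : ℝ) else 0) := by
            split_ifs <;> norm_num
          linarith
        · rw [if_neg c1, zero_add]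
          by_cases c2 : 0 < z f
          · rw [if_pos ⟨c2, lt_of_le_of_ne h3.2 c1⟩]
            exact h3.2
          · rw [if_neg (fun c => c2 c.1)]
            linarith
      refine (Finset.sum_le_sum h2).trans ?_
      rw [Finset.sum_add_distrib, Finset.sum_boole, Finset.sum_boole]
    have h2 : ((F.filter (fun f => 0 < z f ∧ z f < 1)).card : ℝ) ≤ Q.card := by
      exact_mod_cast z4
    linarith

end Pool.Agent.SHA.H56
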