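import Pool.Agent.SHA.Stmts

set_option autoImplicit false

namespace Pool.Agent.SHA.H56

open Pool.Agent.SHA Pool.Agent.Helper18_Helly

universe u

theorem theta_le_one {s m n : ℕ} (hs : 1 ≤ s) (hm : s ≤ m) (hn : s ≤ n) (h : s ^ 2 < m * n) :
    theta s (m : ℕ∞) (n : ℕ∞) ≤ 1 := by
  rw [theta_coe hs hm hn]
  have h1 : (s : ℝ) ^ 2 < (m : ℝ) * n := by exact_mod_cast h
  have h2 : (s : ℝ) ≤ m := by exact_mod_cast hm
  have h3 : (s : ℝ) ≤ n := by exact_mod_cast hn
  have h4 : (1 : ℝ) ≤ s := by exact_mod_cast hs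
  rw [div_le_one (by linarith)]
  nlinarith

open Classical in
theorem card_priv {U : Type u} {W : Finset U} {k : ℕ} {O : Set U} (hW : W.card = k)
    (h : (W.filter (fun x => x ∉ O)).card + 1 = k) : (W.filter (fun x => x ∈ O)).card = 1 := by
  have h1 := Finset.card_filter_add_card_filter_not (s := W) (fun x => x ∈ O)
  omega

open Classical in
theorem lo1 (ld1 : LD1Stmt.{u}) (ptx : PTXStmt.{u}) : LO1Stmt.{u} := by
  intro U X s S₁ S₂ Q hs h1 h2 h12 hX1 hX2 hP hO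
  obtain ⟨W, hWX, hWc, hW1, _⟩ := hP.exists_finset
  have hs' : (0 : ℝ) < s := by exact_mod_cast hs
  have hs1 : (1 : ℝ) ≤ s := by exact_mod_cast hs
  have hc0 : 0 ≤ ((s : ℝ) - 1) / s := div_nonneg (by linarith) hs'.le
  have hc1 : ((s : ℝ) - 1) / s ≤ 1 := by
    rw [div_le_one hs']
    linarith
  obtain ⟨x, x1, x2, x3⟩ := ptx U s S₁ S₂ W Q (((s : ℝ) - 1) / s) hs h1 h2 h12 hc0 hc1 hO
  have hcs : ((s : ℝ) - 1) / s * s = ((s - 1 : ℕ) : ℝ) := by
    rw [div_mul_cancel₀ _ hs'.ne']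
    push_cast [hs]
    ring
  obtain ⟨T', hT', t1, t2⟩ := ld1 U ((S₁ ∪ S₂) \ W) Q x (s - 1) (fun f _ => x1 f) (by
    intro O hOQ
    rw [← hcs]
    exact x2 O hOQ)
  have hdis : Disjoint T' W := by
    apply Finset.disjoint_left.2
    intro f hf hfW
    exact (Finset.mem_sdiff.1 (hT' hf)).2 hfW
  refine ⟨T' ∪ W, ?_, ?_, ?_⟩
  · intro f hf
    rw [Finset.mem_coe, Finset.mem_union] at hf
    rcases hf with hf | hf
    · have h3 := (Finset.mem_sdiff.1 (hT' hf)).1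
      rw [Finset.mem_union] at h3
      rcases h3 with h3 | h3
      · exact hX1 h3
      · exact hX2 h3
    · exact hWX hf
  · intro O hOQ
    rw [Finset.filter_union]
    refine (Finset.card_union_le _ _).trans ?_
    have h3 := t1 O hOQ
    have h4 := card_priv hWc (hW1 O hOQ)
    omega
  · rw [Finset.card_union_of_disjoint hdis]
    set θ := theta s (S₁.card : ℕ∞) (S₂.card : ℕ∞) with hθ
    have hL : lead s (S₁.card : ℕ∞) (S₂.card : ℕ∞) = s * (1 + θ) := rfl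
    rw [hL] at x3 ⊢
    have hθ1 : θ ≤ 1 := theta_le_one hs h1 h2 h12
    rw [hWc] at x3 ⊢
    push_cast
    have h5 : ((s : ℝ) - 1) / s * (s * (1 + θ) - (1 - θ) * (Q.card : ℝ)) =
        s * (1 + θ) - (1 + θ) - (1 - θ) * Q.card + (1 - θ) * Q.card / s := by
      field_simp
      ring
    have h6 : 0 ≤ (1 - θ) * (Q.card : ℝ) / s :=
      div_nonneg (mul_nonneg (by linarith) (Nat.cast_nonneg _)) hs'.le
    linarith

end Pool.Agent.SHA.H56
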