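import Pool.Agent.SHA.Stmts

set_option autoImplicit false

namespace Pool.Agent.SHA.H56

open Pool.Agent.SHA

universe u

open Classical in
theorem kern {U : Type u} (G : Finset U) (Q : Finset (Set U)) (h : Q.card < G.card) :
    ∃ v : U → ℝ, (∀ f, f ∉ G → v f = 0) ∧ (∃ f ∈ G, v f ≠ 0) ∧
      (∀ O ∈ Q, ∑ f ∈ G.filter (fun f => f ∈ O), v f = 0) ∧ 0 ≤ ∑ f ∈ G, v f := by
  have key : ∃ v : U → ℝ, (∀ f, f ∉ G → v f = 0) ∧ (∃ f ∈ G, v f ≠ 0) ∧
      (∀ O ∈ Q, ∑ f ∈ G.filter (fun f => f ∈ O), v f = 0) := by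
    let L : (↥G → ℝ) →ₗ[ℝ] (↥Q → ℝ) := LinearMap.pi fun O =>
      ∑ f : ↥G, (if (f : U) ∈ (O : Set U) then (1 : ℝ) else 0) • LinearMap.proj f
    have hk : LinearMap.ker L ≠ ⊥ := by
      apply LinearMap.ker_ne_bot_of_finrank_lt
      rw [Module.finrank_fintype_fun_eq_card, Module.finrank_fintype_fun_eq_card,
        Fintype.card_coe, Fintype.card_coe]
      exact h
    obtain ⟨w, hw, hw0⟩ := Submodule.exists_mem_ne_zero_of_ne_bot hk
    refine ⟨fun f => if hf : f ∈ G then w ⟨f, hf⟩ else 0, ?_, ?_, ?_⟩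
    · intro f hf
      beta_reduce
      rw [dif_neg hf]
    · obtain ⟨f, hf⟩ := Function.ne_iff.1 hw0
      refine ⟨f, f.2, ?_⟩
      beta_reduce
      rw [dif_pos f.2]
      exact hf
    · intro O hO
      have h1 : L w ⟨O, hO⟩ = 0 := by
        rw [LinearMap.mem_ker.1 hw]
        rfl
      have h2 : L w ⟨O, hO⟩ = ∑ f : ↥G, (if (f : U) ∈ O then w f else 0) := by
        simp only [L, LinearMap.pi_apply, LinearMap.sum_apply, LinearMap.smul_apply,
          LinearMap.proj_apply, smul_eq_mul, ite_mul, one_mul, zero_mul]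
      rw [h2] at h1
      rw [Finset.sum_filter]
      refine Eq.trans ?_ h1
      rw [← Finset.sum_coe_sort G]
      apply Finset.sum_congr rfl
      intro f _
      rw [dif_pos f.2]
  obtain ⟨v, h1, h2, h3⟩ := key
  rcases le_total 0 (∑ f ∈ G, v f) with h4 | h4
  · exact ⟨v, h1, h2, h3, h4⟩
  · refine ⟨fun f => -v f, ?_, ?_, ?_, ?_⟩
    · intro f hf
      beta_reduce
      rw [h1 f hf, neg_zero]
    · obtain ⟨f, hf, hf0⟩ := h2
      exact ⟨f, hf, neg_ne_zero.2 hf0⟩
    · intro O hO
      rw [Finset.sum_neg_distrib, h3 O hO, neg_zero]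
    · rw [Finset.sum_neg_distrib]
      linarith

open Classical in
theorem lpr_aux {U : Type u} (F : Finset U) (Q : Finset (Set U)) : ∀ (n : ℕ) (x : U → ℝ),
    (F.filter (fun f => 0 < x f ∧ x f < 1)).card ≤ n → (∀ f ∈ F, 0 ≤ x f ∧ x f ≤ 1) →
    ∃ z : U → ℝ, (∀ f ∈ F, 0 ≤ z f ∧ z f ≤ 1) ∧
      (∀ O ∈ Q, ∑ f ∈ F.filter (fun f => f ∈ O), z f = ∑ f ∈ F.filter (fun f => f ∈ O), x f) ∧
      ∑ f ∈ F, x f ≤ ∑ f ∈ F, z f ∧
      (F.filter (fun f => 0 < z f ∧ z f < 1)).card ≤ Q.card := by
  intro n
  induction n with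
  | zero =>
    intro x hn hx
    exact ⟨x, hx, fun _ _ => rfl, le_rfl, by omega⟩
  | succ n ih =>
    intro x hn hx
    by_cases hc : (F.filter (fun f => 0 < x f ∧ x f < 1)).card ≤ Q.card
    · exact ⟨x, hx, fun _ _ => rfl, le_rfl, hc⟩
    rw [not_le] at hc
    set G := F.filter (fun f => 0 < x f ∧ x f < 1) with hG
    have hGF : G ⊆ F := Finset.filter_subset _ _
    obtain ⟨v, v0, ⟨f₀, hf₀, hf₀'⟩, vO, vs⟩ := kern G Q hc
    have hGx : ∀ f ∈ G, 0 < x f ∧ x f < 1 := fun f hf => (Finset.mem_filter.1 hf).2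
    set T : U → ℝ := fun f => if 0 < v f then (1 - x f) / v f else x f / (-v f) with hT
    have hS : (G.filter (fun f => v f ≠ 0)).Nonempty := ⟨f₀, Finset.mem_filter.2 ⟨hf₀, hf₀'⟩⟩
    obtain ⟨g, hg, hmin⟩ := Finset.exists_min_image (G.filter (fun f => v f ≠ 0)) T hS
    have hgG := (Finset.mem_filter.1 hg).1
    have hg0 := (Finset.mem_filter.1 hg).2
    have hgx := hGx g hgG
    have ht : 0 < T g := by
      simp only [hT]
      split_ifs with h
      · exact div_pos (by linarith [hgx.2]) h
      · have : v g < 0 := lt_of_le_of_ne (not_lt.1 h) hg0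
        exact div_pos hgx.1 (by linarith)
    set t := T g with htdef
    set y : U → ℝ := fun f => x f + t * v f with hy
    have hyx : ∀ f, v f = 0 → y f = x f := by
      intro f hf
      simp only [hy, hf, mul_zero, add_zero]
    have hyG : ∀ f ∈ G, 0 ≤ y f ∧ y f ≤ 1 := by
      intro f hf
      have hfx := hGx f hf
      by_cases hv : v f = 0
      · rw [hyx f hv]
        exact ⟨hfx.1.le, hfx.2.le⟩
      · have h1 := hmin f (Finset.mem_filter.2 ⟨hf, hv⟩)
        simp only [hy]
        by_cases hp : 0 < v f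
        · have h2 : T f = (1 - x f) / v f := by simp only [hT, if_pos hp]
          rw [h2, le_div_iff₀ hp] at h1
          have h3 : 0 < t * v f := mul_pos ht hp
          constructor <;> linarith
        · have hn' : v f < 0 := lt_of_le_of_ne (not_lt.1 hp) hv
          have h2 : T f = x f / (-v f) := by simp only [hT, if_neg hp]
          rw [h2, le_div_iff₀ (by linarith)] at h1
          have h3 : t * v f < 0 := mul_neg_of_pos_of_neg ht hn'
          constructor <;> linarith
    have hyF : ∀ f ∈ F, 0 ≤ y f ∧ y f ≤ 1 := by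
      intro f hf
      by_cases hfG : f ∈ G
      · exact hyG f hfG
      · rw [hyx f (v0 f hfG)]
        exact hx f hf
    have hgy : ¬ (0 < y g ∧ y g < 1) := by
      intro h
      simp only [hy] at h
      by_cases hp : 0 < v g
      · have h2 : t = (1 - x g) / v g := by simp only [htdef, hT, if_pos hp]
        have h3 : t * v g = 1 - x g := by
          rw [h2]
          field_simp
        linarith [h.2]
      · have h2 : t = x g / (-v g) := by simp only [htdef, hT, if_neg hp]
        have h3 : t * v g = -x g := by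
          rw [h2, div_neg]
          field_simp
        linarith [h.1]
    have hsub : F.filter (fun f => 0 < y f ∧ y f < 1) ⊆ G.erase g := by
      intro f hf
      rw [Finset.mem_filter] at hf
      rw [Finset.mem_erase]
      refine ⟨?_, ?_⟩
      · rintro rfl
        exact hgy hf.2
      · by_contra hfG
        have h1 := hf.2
        rw [hyx f (v0 f hfG)] at h1
        exact hfG (Finset.mem_filter.2 ⟨hf.1, h1⟩)
    have hcard : (F.filter (fun f => 0 < y f ∧ y f < 1)).card ≤ n := by
      have h1 := Finset.card_le_card hsub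
      rw [Finset.card_erase_of_mem hgG] at h1
      omega
    obtain ⟨z, z1, z2, z3, z4⟩ := ih y hcard hyF
    refine ⟨z, z1, ?_, ?_, z4⟩
    · intro O hO
      rw [z2 O hO]
      simp only [hy]
      rw [Finset.sum_add_distrib, ← Finset.mul_sum]
      have h1 : ∑ f ∈ F.filter (fun f => f ∈ O), v f = 0 := by
        rw [← vO O hO]
        symm
        apply Finset.sum_subset
        · exact Finset.filter_subset_filter _ hGF
        · intro f hf hf2
          apply v0
          intro hfG
          exact hf2 (Finset.mem_filter.2 ⟨hfG, (Finset.mem_filter.1 hf).2⟩)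
      rw [h1, mul_zero, add_zero]
    · refine le_trans ?_ z3
      simp only [hy]
      rw [Finset.sum_add_distrib, ← Finset.mul_sum]
      have h1 : ∑ f ∈ F, v f = ∑ f ∈ G, v f := by
        symm
        exact Finset.sum_subset hGF (fun f _ hf => v0 f hf)
      rw [h1]
      have := mul_nonneg ht.le vs
      linarith

theorem lpr : LPRStmt.{u} := by
  intro U F Q x hx
  exact lpr_aux F Q _ x le_rfl hx

end Pool.Agent.SHA.H56
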